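import Pool.Agent.H74.PPADArith
import Pool.Agent.H76.HMS.Base

/-!
# Binary integers and rationals as data of polynomial time functions

`ℕ` is coded in unary in this library; `ℤ` and `ℚ` are coded in binary (`ℚ` in
`Pool.Agent.H76.HMS.Base`, `ℤ` here).  All lemmas `ptime_*` are tagged `fun_prop`.
-/

set_option autoImplicit false

namespace Pool.HMS

open TMLib Polynomial Pool.Agent.H74.PPAD

variable {α β γ : Type} [Enc α] [Enc β] [Enc γ]

/-- binary code of an integer: sign (true for negative) and the bits of the absolute value -/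
instance instEncInt : Enc ℤ := ⟨fun z => enc (decide (z < 0), z.natAbs.bits)⟩

lemma enc_int (z : ℤ) : enc z = enc (decide (z < 0), z.natAbs.bits) := rfl

lemma enc_rat (q : ℚ) :
    enc q = enc (decide (q.num < 0), q.num.natAbs.bits, q.den.bits) := rfl

lemma sz_int (z : ℤ) : sz z = 1 + sz (decide (z < 0)) + sz z.natAbs.bits := rfl

lemma sz_rat (q : ℚ) : sz q = 1 + sz (decide (q.num < 0)) +
    (1 + sz q.num.natAbs.bits + sz q.den.bits) := rfl

/-! ### numbers and bit lists -/

lemma num_cons_bits (b : Bool) (l : List Bool) : (num (b :: l)).bits =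
    if b = false ∧ (num l).bits = [] then [] else b :: (num l).bits := by
  have h0 : ∀ n : ℕ, n.bits = [] ↔ n = 0 := by
    intro n
    constructor
    · intro h
      have := Nat.size_eq_bits_len n
      rw [h] at this
      exact Nat.size_eq_zero.1 this.symm
    · rintro rfl; simp
  simp only [h0]
  cases b with
  | false =>
    simp only [num, Bool.toNat_false, Nat.zero_add, true_and]
    split_ifs with h
    · rw [h]; simp
    · exact Nat.bit0_bits _ h
  | true =>
    simp only [num, Bool.toNat_true]
    rw [if_neg (by simp), Nat.add_comm]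
    exact Nat.bit1_bits _

lemma num_bits' (n : ℕ) : num n.bits = n := by
  induction n using Nat.binaryRec' with
  | zero => simp [num]
  | bit b n h ih =>
    rw [Nat.bits_append_bit _ _ h, num, ih, Nat.bit_val]
    cases b <;> simp <;> omega

/-- canonical bits -/
def canon (l : List Bool) : List Bool :=
  l.reverse.foldl (fun acc b => if b = false ∧ acc = [] then [] else b :: acc) []

lemma canon_eq (l : List Bool) : canon l = (num l).bits := by
  unfold canon
  induction l with
  | nil => simp [num]
  | cons b l ih =>
    rw [List.reverse_cons, List.foldl_append, ih, num_cons_bits]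
    rfl

lemma sz_tail_le (l : List α) : sz l.tail ≤ sz l := by
  cases l with
  | nil => simp
  | cons a l => simp

@[fun_prop] lemma ptime_canon {f : α → List Bool} (hf : PTime f) : PTime (fun x => canon (f x)) := by
  unfold canon
  refine PTime.foldl (f := fun _ acc b => if b = false ∧ acc = [] then [] else b :: acc)
    (init := fun _ => ([] : List Bool)) (l := fun x => (f x).reverse) (by fun_prop) (by fun_prop)
    (by fun_prop) (h := fun x => 1 + 4 * sz (f x))
    ((PB.const 1).add ((PB.const 4).mul hf.pb)) ?_
  intro x l' hl'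
  have key : ∀ (l acc : List Bool), (l.foldl (fun acc b => if b = false ∧ acc = [] then [] else
      b :: acc) acc).length ≤ acc.length + l.length := by
    intro l
    induction l with
    | nil => intro acc; simp
    | cons b l ih =>
      intro acc
      rw [List.foldl_cons]
      refine (ih _).trans ?_
      split_ifs <;> simp <;> omega
  refine (sz_bits_le' _).trans ?_
  have h3 := key l' []
  have h4 := hl'.length_le
  have h5 := length_lt_sz (f x)
  rw [List.length_reverse] at h4
  simp only [List.length_nil, Nat.zero_add] at h3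
  omega

/-- A natural number is computed in binary when its bits are. -/
@[fun_prop] lemma ptime_numbits {f : α → List Bool} (hf : PTime f) :
    PTime (fun x => (num (f x)).bits) :=
  (ptime_canon hf).congr fun x => (canon_eq _).symm

/-! ### constructors and destructors of binary integers -/

/-- the bits of the absolute value -/
@[fun_prop] lemma ptime_absbits {f : α → ℤ} (hf : PTime f) :
    PTime (fun x => (f x).natAbs.bits) :=
  (PTime.of_enc_eq (α := ℤ) (β := Bool × List Bool) (f := fun z => (decide (z < 0), z.natAbs.bits))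
    fun _ => rfl).snd.comp hf

/-- the sign -/
@[fun_prop] lemma ptime_isneg {f : α → ℤ} (hf : PTime f) :
    PTime (fun x => decide (f x < 0)) :=
  (PTime.of_enc_eq (α := ℤ) (β := Bool × List Bool) (f := fun z => (decide (z < 0), z.natAbs.bits))
    fun _ => rfl).fst.comp hf

/-- integer from sign and bits -/
def zmk (s : Bool) (l : List Bool) : ℤ := if s = true then -(num l : ℤ) else num l

lemma zmk_lt (s : Bool) (l : List Bool) :
    decide (zmk s l < 0) = (s && decide (canon l ≠ [])) := by
  have h : canon l = [] ↔ num l = 0 := by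
    rw [canon_eq]
    constructor
    · intro h
      have h2 := num_bits' (num l)
      rw [h] at h2
      exact h2.symm
    · intro h; rw [h]; simp
  rw [Bool.eq_iff_iff]
  simp only [decide_eq_true_eq, Bool.and_eq_true, ne_eq, h]
  unfold zmk
  split_ifs with hs
  · simp [hs]; omega
  · simp [hs]

lemma zmk_abs (s : Bool) (l : List Bool) : (zmk s l).natAbs = num l := by
  unfold zmk
  split_ifs <;> simp

@[fun_prop] lemma ptime_zmk {s : α → Bool} {f : α → List Bool} (hs : PTime s) (hf : PTime f) :
    PTime (fun x => zmk (s x) (f x)) := by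
  have h : PTime (fun x => ((s x && decide (canon (f x) ≠ [])), canon (f x))) := by fun_prop
  obtain ⟨p, T, hp⟩ := h
  refine ⟨p, T, fun a r => ?_⟩
  have e : enc (zmk (s a) (f a)) = enc ((s a && decide (canon (f a) ≠ [])), canon (f a)) := by
    rw [enc_int, zmk_lt, zmk_abs, canon_eq]
  rw [e]
  exact hp a r

lemma zmk_self (z : ℤ) : zmk (decide (z < 0)) z.natAbs.bits = z := by
  unfold zmk
  rw [num_bits']
  split_ifs with h
  · rw [decide_eq_true_eq] at h; omega
  · rw [decide_eq_true_eq] at h; omega

instance instEncInjInt : EncInj ℤ := ⟨fun a b h => by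
  have h2 : (decide (a < 0), a.natAbs.bits) = (decide (b < 0), b.natAbs.bits) :=
    enc_inj.1 h
  rw [← zmk_self a, ← zmk_self b]
  rw [Prod.mk.injEq] at h2
  rw [h2.1, h2.2]⟩

instance instEncInjRat : EncInj ℚ := ⟨fun a b h => by
  have h2 : (decide (a.num < 0), a.num.natAbs.bits, a.den.bits) =
      (decide (b.num < 0), b.num.natAbs.bits, b.den.bits) := enc_inj.1 h
  simp only [Prod.mk.injEq] at h2
  refine Rat.ext ?_ ?_
  · rw [← zmk_self a.num, ← zmk_self b.num, h2.1, h2.2.1]
  · rw [← num_bits' a.den, ← num_bits' b.den, h2.2.2]⟩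

/-- numerator -/
@[fun_prop] lemma ptime_qnum {f : α → ℚ} (hf : PTime f) : PTime (fun x => (f x).num) := by
  have h : PTime (fun q : ℚ => (decide (q.num < 0), q.num.natAbs.bits, q.den.bits)) :=
    PTime.of_enc_eq fun _ => rfl
  have h2 : PTime (fun q : ℚ => zmk (decide (q.num < 0)) q.num.natAbs.bits) :=
    ptime_zmk h.fst h.snd.fst
  exact (h2.congr fun q => (zmk_self _).symm).comp hf

/-- denominator, in binary -/
@[fun_prop] lemma ptime_qden {f : α → ℚ} (hf : PTime f) : PTime (fun x => ((f x).den : ℤ)) := by
  have h : PTime (fun q : ℚ => (decide (q.num < 0), q.num.natAbs.bits, q.den.bits)) :=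
    PTime.of_enc_eq fun _ => rfl
  have h2 : PTime (fun q : ℚ => zmk false q.den.bits) :=
    ptime_zmk (PTime.const false) h.snd.snd
  exact PTime.comp (g := fun q : ℚ => (q.den : ℤ))
    (h2.congr fun q => by simp [zmk, num_bits']) hf

/-- from unary to binary -/
@[fun_prop] lemma ptime_ofNat {f : α → ℕ} (hf : PTime f) : PTime (fun x => (f x : ℤ)) :=
  (ptime_zmk (PTime.const false) (PTime.bits hf)).congr fun x => by simp [zmk, num_bits']

/-! ### sizes -/

/-- number of bits of an integer -/
def zb (z : ℤ) : ℕ := Nat.size z.natAbs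

/-- number of bits of a rational (the larger of numerator and denominator) -/
def qb (q : ℚ) : ℕ := max (Nat.size q.num.natAbs) (Nat.size q.den)

lemma sz_int_le (z : ℤ) : sz z ≤ 5 + 4 * zb z := by
  rw [sz_int, zb, ← Nat.size_eq_bits_len]
  have h1 := sz_bool_le (decide (z < 0))
  have h2 := sz_bits_le' z.natAbs.bits
  omega

lemma zb_le_sz (z : ℤ) : 2 * zb z ≤ sz z := by
  rw [sz_int, zb, ← Nat.size_eq_bits_len]
  have h2 := length_lt_sz z.natAbs.bits
  omega

lemma sz_rat_le (q : ℚ) : sz q ≤ 7 + 8 * qb q := by
  rw [sz_rat]
  have h0 := sz_bool_le (decide (q.num < 0))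
  have h1 := sz_bits_le' q.num.natAbs.bits
  have h2 := sz_bits_le' q.den.bits
  have h3 : q.num.natAbs.bits.length ≤ qb q := by
    rw [Nat.size_eq_bits_len]; exact le_max_left _ _
  have h4 : q.den.bits.length ≤ qb q := by
    rw [Nat.size_eq_bits_len]; exact le_max_right _ _
  omega

lemma qb_le_sz (q : ℚ) : 2 * qb q ≤ sz q := by
  rw [sz_rat]
  have h1 := length_lt_sz q.num.natAbs.bits
  have h2 := length_lt_sz q.den.bits
  rw [Nat.size_eq_bits_len] at h1 h2
  unfold qb
  omega

end Pool.HMS
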