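import Pool.Agent.H48.HMS.Bin
import Pool.Agent.H76.HMS.Main

/-!
# HMS: statements of the arithmetic modules and of the modules of box 7 (Turing machine)
-/

set_option autoImplicit false

namespace Pool.HMS

open TMLib Finset Polynomial

/-! ### Arithmetic (all numbers in binary, `Enc ℤ` from `Bin.lean`, `Enc ℚ` from `Base.lean`) -/

/-- integer addition -/
def S_ZADD : Prop := PTime (fun p : ℤ × ℤ => p.1 + p.2)

/-- integer multiplication -/
def S_ZMUL : Prop := PTime (fun p : ℤ × ℤ => p.1 * p.2)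

/-- integer division (`Int.ediv`) -/
def S_ZDIV : Prop := PTime (fun p : ℤ × ℤ => p.1 / p.2)

/-- greatest common divisor -/
def S_GCD : Prop := PTime (fun p : ℤ × ℤ => (Int.gcd p.1 p.2 : ℤ))

/-- quotient of two integers, as a rational in normal form -/
def S_QMK : Prop := PTime (fun p : ℤ × ℤ => (p.1 : ℚ) / (p.2 : ℚ))

/-- basic operations on rationals -/
structure QOps : Prop where
  add : PTime (fun p : ℚ × ℚ => p.1 + p.2)
  mul : PTime (fun p : ℚ × ℚ => p.1 * p.2)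
  neg : PTime (fun p : ℚ => -p)
  inv : PTime (fun p : ℚ => p⁻¹)
  le : PTime (fun p : ℚ × ℚ => decide (p.1 ≤ p.2))
  floor : PTime (fun p : ℚ => ⌊p⌋)
  cast : PTime (fun p : ℤ => (p : ℚ))

def S_QOP : Prop := QOps

/-- sizes: `qb q` is the number of bits of numerator and denominator -/
structure QSz : Prop where
  add : ∀ p q : ℚ, qb (p + q) ≤ qb p + qb q + 1
  mul : ∀ p q : ℚ, qb (p * q) ≤ qb p + qb q
  neg : ∀ p : ℚ, qb (-p) = qb p
  inv : ∀ p : ℚ, qb p⁻¹ ≤ qb p
  /-- a rational with small absolute value and small denominator has few bits -/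
  den : ∀ (p : ℚ) (m n : ℕ), |p| ≤ 2 ^ m → p.den ≤ 2 ^ n → qb p ≤ m + n + 1
  abs : ∀ p : ℚ, |p| ≤ 2 ^ qb p
  int : ∀ (z : ℤ) (n : ℕ), |z| ≤ 2 ^ n → qb z ≤ n + 1
  sum : ∀ l : List ℚ, qb l.sum ≤ (l.map fun q => qb q + 1).sum + 1
  prod : ∀ l : List ℚ, qb l.prod ≤ (l.map qb).sum + 1
  pow : ∀ (q : ℚ) (n : ℕ), qb (q ^ n) ≤ n * qb q + 1
  finsum : ∀ (n : ℕ) (f : ℕ → ℚ), qb (∑ i ∈ range n, f i) ≤ ∑ i ∈ range n, (qb (f i) + 1) + 1

def S_QSZ : Prop := QSz

/-- sums, products and powers of rationals -/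
structure QSums : Prop where
  sum : PTime (fun l : List ℚ => l.sum)
  prod : PTime (fun l : List ℚ => l.prod)
  pow : PTime (fun p : ℚ × ℕ => p.1 ^ p.2)
  /-- the integers from `⌈a⌉` on, at most `n` of them, up to `b` -/
  irange : PTime (fun p : ℚ × ℚ × ℕ =>
    ((List.range p.2.2).map fun i => ((⌈p.1⌉ : ℤ) : ℚ) + i).filter fun z => decide (z ≤ p.2.1))
  /-- binary to unary, cut off at `n` -/
  unary : PTime (fun p : ℤ × ℕ => min p.1.toNat p.2)
  /-- number of bits, in unary -/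
  bits : PTime (fun q : ℚ => qb q)

def S_QSUM : Prop := QSums

/-! ### Box 7 -/

/-- the input list of `S15391` -/
def inp (m T : ℕ) (l : List (ℕ × ℕ)) : List (Option Bool) :=
  List.map some (Nat.bits m) ++ ([none] : List (Option Bool)) ++
    List.map some (Nat.bits T) ++ ([none] : List (Option Bool)) ++
    l.flatMap (fun q : ℕ × ℕ => List.map some (Nat.bits q.1) ++
      ([none] : List (Option Bool)) ++ List.map some (Nat.bits q.2) ++
      ([none] : List (Option Bool)))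

/-- feasibility, as in `S15391` -/
def Feas (m T : ℕ) (l : List (ℕ × ℕ)) : Prop :=
  ∃ x : Fin l.length → Fin m → ℕ,
    (∀ i, ∑ j, x i j = (l.get i).2) ∧ ∀ j, ∑ i, x i j * (l.get i).1 ≤ T

/-- the Ackermann functions `ack m` (unary) are computed by programs in computable time -/
def S_ACK : Prop := ∀ m : ℕ, ∃ (p : Prog) (G : ℕ → ℕ), Computable G ∧ Monotone G ∧
  ∀ k r, Runs p (ms ((enc k).code ++ r)) (ms ((enc (ack m k)).code ++ r)) (G k)

/-- a machine with an input stack over `Option Bool` around a program -/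
def S_MACH : Prop :=
  ∀ (p : Prog) (F : List (Option Bool) → Bool) (τ : List (Option Bool) → ℕ),
    (∀ L, Runs p (ms (enc L.reverse).code) (ms (enc (F L)).code) (τ L)) →
    ∃ tm : Turing.FinTM2, ∃ ei : tm.Γ tm.k₀ ≃ Option Bool, ∃ eo : tm.Γ tm.k₁ ≃ Bool,
      ∀ L, Nonempty (Turing.TM2OutputsInTime tm (L.map ei.symm) (some [eo.symm (F L)])
        (τ L + 20 * (L.length + 1)))

/-- parsing the input -/
def S_PARSE : Prop := ∃ f : List (Option Bool) → List Bool × List Bool × List (List Bool × List Bool),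
  PTime f ∧ ∀ m T l, f (inp m T l) =
    (Nat.bits m, Nat.bits T, l.map fun q => (Nat.bits q.1, Nat.bits q.2))

/-- remove duplicates -/
def ddp {α : Type} [DecidableEq α] (l : List α) : List α :=
  l.foldl (fun acc a => if a ∈ acc then acc else acc ++ [a]) []

def S_DDP : Prop := ∀ (α : Type) [DecidableEq α], (∀ l : List α, (ddp l).Nodup ∧ (∀ a, a ∈ ddp l ↔ a ∈ l) ∧
  (ddp l).length = l.toFinset.card) ∧
  ∀ (β : Type) [Enc α] [EncInj α] [Enc β] (f : β → List α), PTime f → PTime (fun x => ddp (f x))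

/-- the distinct nonzero processing times -/
def tms (l : List (ℕ × ℕ)) : List ℕ := (ddp (l.map Prod.fst)).filter fun a => decide (a ≠ 0)

/-- number of jobs with processing time `a` -/
def cnt (l : List (ℕ × ℕ)) (a : ℕ) : ℕ := ((l.filter fun q => decide (q.1 = a)).map Prod.snd).sum

/-- feasibility of the merged instance: `X j a` jobs of length `a` on machine `j` -/
def MFeas (m T : ℕ) (l : List (ℕ × ℕ)) : Prop :=
  ∃ X : Fin m → ℕ → ℕ, (∀ a ∈ tms l, ∑ j, X j a = cnt l a) ∧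
    ∀ j, ((tms l).map fun a => X j a * a).sum ≤ T

def S_MERGE : Prop := ∀ m T l, Feas m T l ↔ (m = 0 → ∀ q ∈ l, q.2 = 0) ∧ MFeas m T l

/-- the same data over the rationals -/
def tmsQ (l : List (ℚ × ℚ)) : List ℚ := (ddp (l.map Prod.fst)).filter fun a => decide (a ≠ 0)

def cntQ (l : List (ℚ × ℚ)) (a : ℚ) : ℚ := ((l.filter fun q => decide (q.1 = a)).map Prod.snd).sum

/-- the rows of the polytope `x ≥ 0`, `∑ a_i x_i ≤ T` -/
def rowsQ (T : ℚ) (l : List (ℚ × ℚ)) : Mat :=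
  ((List.range (tmsQ l).length).map fun i =>
    (List.range ((tmsQ l).length + 1)).map fun j => if j = i + 1 then (1 : ℚ) else 0) ++
  [T :: (tmsQ l).map fun a => -a]

/-- the target vector -/
def yQ (m : ℚ) (l : List (ℚ × ℚ)) : Vec := (tmsQ l).map (cntQ l) ++ [m]

/-- cast of an instance -/
def lQ (l : List (ℕ × ℕ)) : List (ℚ × ℚ) := l.map fun q => ((q.1 : ℚ), (q.2 : ℚ))

def S_MIC : Prop := ∀ (m T : ℕ) (l : List (ℕ × ℕ)),
  MFeas m T l ↔ fn (yQ m (lQ l)) ∈ IC (HA (tmsQ (lQ l)).length (rowsQ T (lQ l)))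

/-- side conditions of box 6 -/
def S_SIDE : Prop := ∀ (m T : ℕ) (l : List (ℕ × ℕ)),
  (tmsQ (lQ l)).length ≤ (l.map Prod.fst).toFinset.card ∧
  IsI (max (T : ℚ) 2) ∧ (2 : ℚ) ≤ max (T : ℚ) 2 ∧
  (∀ x ∈ Poly (tmsQ (lQ l)).length (rowsQ T (lQ l)), Box (tmsQ (lQ l)).length (max (T : ℚ) 2) x) ∧
  (∀ x, Supp (tmsQ (lQ l)).length x → (∀ r ∈ rowsQ T (lQ l),
    0 ≤ lin (tmsQ (lQ l)).length (fun i => fn r (i + 1)) x) → ∀ i, x i = 0) ∧
  (yQ m (lQ l)).length = (tmsQ (lQ l)).length + 1 ∧ ∀ i, IsI (fn (yQ m (lQ l)) i)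

end Pool.HMS
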